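import Pool.Agent.W102.TD.Defs

/-! Project TD, part LOOP0: the bound for words starting with `false`. -/

set_option autoImplicit false

namespace Pool.Agent.W571.TD

open Finset LaurentPolynomial Pool.Agent.W102.TD

theorem xa_eq : xa = AddMonoidAlgebra.single (1 : ℤ) (1 / 2 : ℚ) := (single_eq_C_mul_T _ _).symm

theorem xb_eq : xb = AddMonoidAlgebra.single (-1 : ℤ) (1 / 2 : ℚ) := (single_eq_C_mul_T _ _).symm

theorem wgt_eq (u : List Bool) : wgt xa xb u =
    AddMonoidAlgebra.single ((u.count true : ℤ) - u.count false) ((1 / 2 : ℚ) ^ u.length) := by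
  induction u with
  | nil =>
    simp only [wgt, List.map_nil, List.prod_nil, List.count_nil, List.length_nil, pow_zero,
      Nat.cast_zero, sub_zero]
    rfl
  | cons c u ih =>
    have h : wgt xa xb (c :: u) = (if c = true then xa else xb) * wgt xa xb u := by
      simp [wgt]
    rw [h, ih]
    cases c
    · rw [if_neg (by simp), xb_eq, AddMonoidAlgebra.single_mul_single]
      congr 1
      · simp
        ring
      · rw [List.length_cons, pow_succ]
        ring
    · rw [if_pos rfl, xa_eq, AddMonoidAlgebra.single_mul_single]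
      congr 1
      · simp
        ring
      · rw [List.length_cons, pow_succ]
        ring

/-- coefficients of the sum over `U w` -/
noncomputable def qc (w : List Bool) (d : ℤ) : ℚ :=
  ∑ u ∈ (U w).filter (fun u => (u.count true : ℤ) - u.count false = d), (1 / 2 : ℚ) ^ u.length

theorem qc_eq (w : List Bool) (d : ℤ) : (∑ u ∈ U w, wgt xa xb u).coeff d = qc w d := by
  rw [AddMonoidAlgebra.coeff_sum, Finsupp.finset_sum_apply, qc, Finset.sum_filter]
  refine Finset.sum_congr rfl fun u _ => ?_
  rw [wgt_eq, AddMonoidAlgebra.coeff_single_apply]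

theorem len_le {w u : List Bool} (hu : u ∈ U w) : u.length ≤ w.length := by
  rw [U, Finset.mem_filter, List.mem_toFinset, List.mem_sublists] at hu
  exact hu.1.length_le

theorem qc_zero (w : List Bool) (d : ℤ) (hd : d < -(w.length : ℤ)) : qc w d = 0 := by
  rw [qc, Finset.filter_eq_empty_iff.2 fun u hu h => ?_, Finset.sum_empty]
  have h1 := len_le hu
  have h2 : u.count false ≤ u.length := List.count_le_length
  omega

theorem ring_coeff (hR : RING) (hC : COEF) (w : List Bool) (d : ℤ) :
    qc w d - qc w (d - 1) / 2 - qc w (d + 1) / 2 =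
    (if d = 0 then 1 else 0)
      - ((cnt (false :: w) false false d : ℚ) + cnt (false :: w) true true d)
          / 2 ^ (w.length + 1)
      + (if (w.count true : ℤ) - w.count false - 1 = d then (1 / 2 : ℚ) ^ (w.length + 1)
          else 0) := by
  have h := congrArg (fun p : LaurentPolynomial ℚ => p.coeff d) (hR (LaurentPolynomial ℚ) xa xb w)
  simp only [sub_mul, one_mul, Matrix.trace_fin_two] at h
  rw [AddMonoidAlgebra.coeff_sub, AddMonoidAlgebra.coeff_sub, AddMonoidAlgebra.coeff_add,
    AddMonoidAlgebra.coeff_sub, AddMonoidAlgebra.coeff_add] at h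
  simp only [Finsupp.sub_apply, Finsupp.add_apply] at h
  have h0 := hC (false :: w) false false d
  have h1 := hC (false :: w) true true d
  simp only [ix] at h0 h1
  rw [h0, h1, qc_eq] at h
  rw [show (xa * ∑ u ∈ U w, wgt xa xb u).coeff d = qc w (d - 1) / 2 by
      rw [xa_eq, AddMonoidAlgebra.coeff_single_mul_apply, ← xa_eq, qc_eq,
        show -1 + d = d - 1 by ring]
      ring,
    show (xb * ∑ u ∈ U w, wgt xa xb u).coeff d = qc w (d + 1) / 2 by
      rw [xb_eq, AddMonoidAlgebra.coeff_single_mul_apply, ← xb_eq, qc_eq,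
        show -(-1) + d = d + 1 by ring]
      ring] at h
  rw [h, wgt_eq, xb_eq, AddMonoidAlgebra.single_mul_single, AddMonoidAlgebra.coeff_single_apply,
    AddMonoidAlgebra.one_def, AddMonoidAlgebra.coeff_single_apply, List.length_cons,
    show -1 + ((w.count true : ℤ) - w.count false) = (w.count true : ℤ) - w.count false - 1 by ring,
    add_div, pow_succ (1 / 2 : ℚ), mul_comm ((1 / 2 : ℚ) ^ w.length)]
  simp only [eq_comm (a := (0 : ℤ)) (b := d)]

theorem sum_Icc_neg (f : ℤ → ℚ) (K : ℕ) :
    ∑ d ∈ Finset.Icc (-(K : ℤ)) (-1), f d = ∑ k ∈ Finset.range K, f (-(k : ℤ) - 1) := by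
  symm
  refine Finset.sum_nbij' (fun k : ℕ => -(k : ℤ) - 1) (fun d : ℤ => (-d - 1).toNat) ?_ ?_ ?_ ?_ ?_
  · intro k hk
    rw [Finset.mem_range] at hk
    rw [Finset.mem_Icc]
    omega
  · intro d hd
    rw [Finset.mem_Icc] at hd
    rw [Finset.mem_range]
    omega
  · intro k hk
    omega
  · intro d hd
    rw [Finset.mem_Icc] at hd
    omega
  · intro k _
    rfl

theorem telescope (q : ℤ → ℚ) (K : ℕ) :
    ∑ k ∈ Finset.range K, (q (-(k : ℤ) - 1) - q (-(k : ℤ) - 1 - 1) / 2 - q (-(k : ℤ) - 1 + 1) / 2)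
      = (1 / 2) * ((q (-(K : ℤ)) - q (-(K : ℤ) - 1)) - (q 0 - q (-1))) := by
  induction K with
  | zero => simp
  | succ K ih =>
    rw [Finset.sum_range_succ, ih]
    rw [show -((K + 1 : ℕ) : ℤ) = -(K : ℤ) - 1 by push_cast; ring,
      show -(K : ℤ) - 1 + 1 = -(K : ℤ) by ring]
    ring

theorem loop0 (hR : RING) (hC : COEF) (hQ : QINEQ) : LOOP0 := by
  intro w hw
  set K : ℕ := w.length + 1 with hK
  have hlen : (false :: w).length = K := rfl
  rw [hlen]
  have h1 := telescope (qc w) K
  rw [← sum_Icc_neg (fun d => qc w d - qc w (d - 1) / 2 - qc w (d + 1) / 2) K] at h1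
  rw [qc_zero w (-(K : ℤ)) (by omega), qc_zero w (-(K : ℤ) - 1) (by omega)] at h1
  have h2 : ∑ d ∈ Finset.Icc (-(K : ℤ)) (-1), (qc w d - qc w (d - 1) / 2 - qc w (d + 1) / 2)
      = - (∑ d ∈ Finset.Icc (-(K : ℤ)) (-1),
          ((cnt (false :: w) false false d : ℚ) + cnt (false :: w) true true d)) / 2 ^ K
        + (if w.count true ≤ w.count false then (1 / 2 : ℚ) ^ K else 0) := by
    rw [Finset.sum_congr rfl fun d _ => ring_coeff hR hC w d, Finset.sum_add_distrib,
      Finset.sum_sub_distrib, ← Finset.sum_div]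
    have e1 : ∑ d ∈ Finset.Icc (-(K : ℤ)) (-1), (if d = 0 then (1 : ℚ) else 0) = 0 := by
      refine Finset.sum_eq_zero fun d hd => ?_
      rw [Finset.mem_Icc] at hd
      rw [if_neg (by omega)]
    have e2 : ∑ d ∈ Finset.Icc (-(K : ℤ)) (-1),
        (if (w.count true : ℤ) - w.count false - 1 = d then (1 / 2 : ℚ) ^ (w.length + 1) else 0)
        = if w.count true ≤ w.count false then (1 / 2 : ℚ) ^ K else 0 := by
      rw [Finset.sum_ite_eq]
      have h3 : w.count false ≤ w.length := List.count_le_length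
      by_cases h : w.count true ≤ w.count false
      · rw [if_pos h, if_pos (by rw [Finset.mem_Icc]; omega)]
      · rw [if_neg h, if_neg (by rw [Finset.mem_Icc]; omega)]
    rw [e1, e2]
    ring
  have h3 := hQ w hw
  have h4 : qc w 0 = ∑ u ∈ (U w).filter (fun u => u.count true = u.count false),
      (1 / 2 : ℚ) ^ u.length := by
    rw [qc]
    congr 1
    refine Finset.filter_congr fun u _ => ?_
    omega
  have h5 : qc w (-1) = ∑ u ∈ (U w).filter (fun u => u.count false = u.count true + 1),
      (1 / 2 : ℚ) ^ u.length := by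
    rw [qc]
    congr 1
    refine Finset.filter_congr fun u _ => ?_
    omega
  rw [← h4, ← h5] at h3
  rw [h2] at h1
  set A : ℚ := ∑ d ∈ Finset.Icc (-(K : ℤ)) (-1),
          ((cnt (false :: w) false false d : ℚ) + cnt (false :: w) true true d) with hA
  have h6 : A / 2 ^ K ≤ 1 / 2 := by
    have h7 : (if w.count true ≤ w.count false then (1 / 2 : ℚ) ^ K else 0)
        = (1 / 2) * (if w.count true ≤ w.count false then (1 / 2 : ℚ) ^ w.length else 0) := by
      split_ifs
      · rw [hK, pow_succ]; ring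
      · ring
    rw [h7] at h1
    rw [neg_div] at h1
    linarith
  have h8 : 2 * A ≤ 2 ^ K := by
    have h9 : (0 : ℚ) < 2 ^ K := by positivity
    rw [div_le_iff₀ h9] at h6
    linarith
  have h10 : ((2 * ∑ d ∈ Finset.Icc (-(K : ℤ)) (-1),
      (cnt (false :: w) false false d + cnt (false :: w) true true d) : ℕ) : ℚ) ≤
      ((2 ^ K : ℕ) : ℚ) := by
    push_cast
    exact h8
  exact_mod_cast h10

end Pool.Agent.W571.TD
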