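import Pool.Agent.W102.TD.Defs

/-! Project TD, part REP: functions of degree `< m` have low weight polynomials. -/

set_option autoImplicit false

namespace Pool.Agent.W571.TD

open Finset Pool.Agent.W102.TD

theorem rep_one (hP : PROD) (F : Type) [Field F] [Fintype F] [Algebra (ZMod 2) F] (m : ℕ)
    (hF : Fintype.card F = 2 ^ m) (e : F ≃ₗ[ZMod 2] (Fin m → ZMod 2))
    (S : Finset (Fin (2 * m))) (hS : S.card < m) (a : ZMod 2) :
    ∃ H : ℕ → ℕ → F, Low m H ∧ ∀ x y : F,
      algebraMap (ZMod 2) F (a * ∏ i ∈ S, zz (e x) (e y) i) = ev m H x y := by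
  classical
  let l1 : Fin (2 * m) → (F →ₗ[ZMod 2] ZMod 2) := fun i =>
    if h : (i : ℕ) < m then (LinearMap.proj (⟨i, h⟩ : Fin m)).comp e.toLinearMap else 0
  let l2 : Fin (2 * m) → (F →ₗ[ZMod 2] ZMod 2) := fun i =>
    if h : (i : ℕ) < m then 0 else
      (LinearMap.proj (⟨(i : ℕ) - m, by omega⟩ : Fin m)).comp e.toLinearMap
  set S1 : Finset (Fin (2 * m)) := S.filter (fun i : Fin (2 * m) => (i : ℕ) < m) with hS1
  set S2 : Finset (Fin (2 * m)) := S.filter (fun i : Fin (2 * m) => ¬ (i : ℕ) < m) with hS2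
  have hc : S1.card + S2.card = S.card := by
    rw [hS1, hS2]
    exact Finset.card_filter_add_card_filter_not (s := S) fun i : Fin (2 * m) => (i : ℕ) < m
  obtain ⟨h1, h1w, h1e⟩ := hP F m hF (Fin (2 * m)) S1 l1 (by omega)
  obtain ⟨h2, h2w, h2e⟩ := hP F m hF (Fin (2 * m)) S2 l2 (by omega)
  refine ⟨fun i j => algebraMap (ZMod 2) F a * (h1 i * h2 j), ?_, ?_⟩
  · intro i j hij
    have hi : h1 i ≠ 0 := fun h => hij (by simp [h])
    have hj : h2 j ≠ 0 := fun h => hij (by simp [h])
    have := h1w i hi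
    have := h2w j hj
    exact ⟨(h1w i hi).1, (h2w j hj).1, by omega⟩
  · intro x y
    have hprod : ∏ i ∈ S, zz (e x) (e y) i = (∏ i ∈ S1, l1 i x) * ∏ i ∈ S2, l2 i y := by
      rw [← Finset.prod_filter_mul_prod_filter_not S (fun i : Fin (2 * m) => (i : ℕ) < m)]
      congr 1
      · refine Finset.prod_congr rfl fun i hi => ?_
        have h := (Finset.mem_filter.1 hi).2
        simp [zz, l1, h]
      · refine Finset.prod_congr rfl fun i hi => ?_
        have h := (Finset.mem_filter.1 hi).2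
        simp [zz, l2, h]
    rw [hprod, map_mul, map_mul, h1e, h2e, Finset.sum_mul_sum, Finset.mul_sum, ev]
    refine Finset.sum_congr rfl fun i _ => ?_
    rw [Finset.mul_sum]
    refine Finset.sum_congr rfl fun j _ => ?_
    ring

theorem rep (hP : PROD) : REP := by
  classical
  intro F _ _ _ m hm hF e c hc
  have key : ∀ S : Finset (Fin (2 * m)), ∃ H : ℕ → ℕ → F, Low m H ∧ ∀ x y : F,
      algebraMap (ZMod 2) F (c S * ∏ i ∈ S, zz (e x) (e y) i) = ev m H x y := by
    intro S
    by_cases h : c S = 0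
    · refine ⟨fun _ _ => 0, fun i j hij => absurd rfl hij, fun x y => ?_⟩
      simp [h, ev]
    · exact rep_one hP F m hF e S (hc S h) (c S)
  choose G hG hGe using key
  refine ⟨fun i j => ∑ S : Finset (Fin (2 * m)), G S i j, ?_, ?_⟩
  · intro i j hij
    obtain ⟨S, -, hS⟩ := Finset.exists_ne_zero_of_sum_ne_zero hij
    exact hG S i j hS
  · intro x y
    rw [map_sum, Finset.sum_congr rfl fun S _ => hGe S x y]
    simp only [ev, Finset.sum_mul]
    rw [Finset.sum_comm]
    refine Finset.sum_congr rfl fun i _ => ?_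
    rw [Finset.sum_comm]

end Pool.Agent.W571.TD
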